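import Pool.Agent.K4H65.EM.Spec

set_option autoImplicit false

namespace Pool.Agent.K4H65.EM

open Finset

theorem comb : S_STEP → S_COMB := by
  intro hstep n d L m G S hm h1 h2 hc k
  induction k with
  | zero =>
    intro U hU
    simp at hU
    simp [hU]
  | succ k ih =>
    intro U hU
    by_cases hL : L ≤ U.card
    · obtain ⟨U1, k1, k2, ha, hk, hcard, hsq⟩ := hstep n d L m G S hm h1 h2 hc U hL
      have e : 2 * m * (k + 1) = 2 * m * k + 2 * m := by ring
      by_cases hL1 : L ≤ U1.card
      · have hs := hsq hL1
        by_cases hh : U.card ≤ 2 * U1.card
        · have h3 : U1.card ≤ k2 := by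
            rcases Nat.eq_zero_or_pos U1.card with h0 | h0
            · omega
            · have : U1.card * (2 * U1.card) ≤ k2 * (2 * U1.card) := by
                calc U1.card * (2 * U1.card) = 2 * U1.card ^ 2 := by ring
                  _ ≤ k2 * U.card := hs
                  _ ≤ k2 * (2 * U1.card) := Nat.mul_le_mul_left _ hh
              exact Nat.le_of_mul_le_mul_right this (by omega)
          rw [e]; omega
        · have h4 : U1.card < 2 ^ k := by
            rw [pow_succ] at hU; omega
          have h5 := ih U1 h4
          rw [e]; omega
      · rw [e]; omega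
    · omega

end Pool.Agent.K4H65.EM
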