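import Pool.Agent.K4H65.EM.Spec

set_option autoImplicit false

namespace Pool.Agent.K4H65.EM

open Finset

namespace H73

noncomputable def ind (a : Fin 1024) : ℝ := if a = 0 then 1 else 0

def ed {n m : ℕ} (g : Fin m × Fin 2 → Fin n) (q : (Fin m × Fin n) × Fin 2) : Fin n × Fin n :=
  (min (g (q.1.1, q.2)) q.1.2, max (g (q.1.1, q.2)) q.1.2)

theorem ed_inj {n m : ℕ} (W : Finset (Fin n)) (g : Fin m × Fin 2 → Fin n)
    (hg : Function.Injective g) (hW : ∀ p, g p ∉ W) (q q' : (Fin m × Fin n) × Fin 2)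
    (hq : q.1.2 ∈ W) (hq' : q'.1.2 ∈ W) (h : ed g q = ed g q') : q = q' := by
  obtain ⟨⟨j, x⟩, b⟩ := q
  obtain ⟨⟨j', x'⟩, b'⟩ := q'
  simp only [ed, Prod.mk.injEq] at h hq hq' ⊢
  obtain ⟨h1, h2⟩ := h
  have key : g (j, b) = g (j', b') ∧ x = x' := by
    rcases le_total (g (j, b)) x with a | a <;> rcases le_total (g (j', b')) x' with c | c
    · rw [min_eq_left a, min_eq_left c] at h1
      rw [max_eq_right a, max_eq_right c] at h2
      exact ⟨h1, h2⟩
    · rw [min_eq_left a, min_eq_right c] at h1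
      exact absurd (h1 ▸ hq') (hW _)
    · rw [min_eq_right a, min_eq_left c] at h1
      exact absurd (h1 ▸ hq) (hW _)
    · rw [min_eq_right a, min_eq_right c] at h1
      rw [max_eq_left a, max_eq_left c] at h2
      exact ⟨h2, h1⟩
  have h3 := hg key.1
  rw [Prod.mk.injEq] at h3
  exact ⟨⟨h3.1, key.2⟩, h3.2⟩

open Classical in
theorem sumZ {n m : ℕ} (W : Finset (Fin n)) (g : Fin m × Fin 2 → Fin n)
    (hg : Function.Injective g) (hW : ∀ p, g p ∉ W) (Z : Finset (Fin m × Fin n))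
    (hZ : ∀ z ∈ Z, z.2 ∈ W) :
    ∑ ω : Fin n × Fin n → Fin 1024, ∏ z ∈ Z, (ind (ω (ed g (z, 0))) * ind (ω (ed g (z, 1)))) =
      1024 ^ (n * n) * (1 / 1024 ^ 2) ^ Z.card := by
  set E : Finset (Fin n × Fin n) := (Z ×ˢ (univ : Finset (Fin 2))).image (ed g) with hE
  have hinj : Set.InjOn (ed g) (Z ×ˢ (univ : Finset (Fin 2)) : Finset _) := by
    intro q hq q' hq' h
    rw [Finset.mem_coe, Finset.mem_product] at hq hq'
    exact ed_inj W g hg hW q q' (hZ _ hq.1) (hZ _ hq'.1) h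
  have hEc : E.card = 2 * Z.card := by
    rw [hE, Finset.card_image_of_injOn hinj, Finset.card_product, Finset.card_univ, Fintype.card_fin,
      mul_comm]
  have h1 : ∀ ω : Fin n × Fin n → Fin 1024,
      ∏ z ∈ Z, (ind (ω (ed g (z, 0))) * ind (ω (ed g (z, 1)))) =
        ∏ e : Fin n × Fin n, (if e ∈ E then ind (ω e) else 1) := by
    intro ω
    rw [Finset.prod_ite_mem, Finset.univ_inter, hE, Finset.prod_image hinj, Finset.prod_product]
    refine Finset.prod_congr rfl fun z _ => ?_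
    rw [Fin.prod_univ_two]
  rw [Finset.sum_congr rfl fun ω _ => h1 ω]
  have h2 := (Finset.prod_univ_sum (fun _ : Fin n × Fin n => (univ : Finset (Fin 1024)))
    (fun e a => (if e ∈ E then ind a else (1 : ℝ)))).symm
  rw [Fintype.piFinset_univ] at h2
  rw [h2]
  have h3 : ∀ e : Fin n × Fin n, (∑ a : Fin 1024, (if e ∈ E then ind a else (1 : ℝ))) =
      if e ∈ E then 1 else 1024 := by
    intro e
    by_cases he : e ∈ E
    · simp only [he, if_true, ind]
      rw [Finset.sum_ite_eq' univ (0 : Fin 1024) (fun _ => (1 : ℝ))]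
      simp
    · simp only [he, if_false]
      simp
  rw [Finset.prod_congr rfl fun e _ => h3 e, Finset.prod_ite, Finset.prod_const_one, one_mul,
    Finset.prod_const]
  have h4 : (univ.filter fun e : Fin n × Fin n => e ∉ E).card + 2 * Z.card = n * n := by
    rw [← hEc]
    have h5 := Finset.card_filter_add_card_filter_not (s := (univ : Finset (Fin n × Fin n)))
      (fun e => e ∈ E)
    have h6 : (univ.filter fun e : Fin n × Fin n => e ∈ E) = E := by simp
    rw [h6, Finset.card_univ, Fintype.card_prod, Fintype.card_fin] at h5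
    omega
  rw [← h4, pow_add, pow_mul, mul_assoc, ← mul_pow]
  norm_num

end H73

open Classical in
theorem t2a : S_T2a := by
  intro n m W g hg hW
  set B : Finset (Fin m × Fin n) := (univ : Finset (Fin m)) ×ˢ W with hB
  have h1 : ∀ ω : Fin n × Fin n → Fin 1024,
      (2 : ℝ) ^ (∑ j : Fin m, cn (gr ω) W (g (j, 0)) (g (j, 1))) =
        ∏ z ∈ B, (1 + H73.ind (ω (H73.ed g (z, 0))) * H73.ind (ω (H73.ed g (z, 1)))) := by
    intro ω
    rw [hB, Finset.prod_product, ← Finset.prod_pow_eq_pow_sum]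
    refine Finset.prod_congr rfl fun j _ => ?_
    unfold cn
    rw [Finset.card_filter, ← Finset.prod_pow_eq_pow_sum]
    refine Finset.prod_congr rfl fun x hx => ?_
    have n0 : g (j, 0) ≠ x := fun h => hW (j, 0) (h ▸ hx)
    have n1 : g (j, 1) ≠ x := fun h => hW (j, 1) (h ▸ hx)
    by_cases a0 : ω (min (g (j, 0)) x, max (g (j, 0)) x) = 0 <;>
      by_cases a1 : ω (min (g (j, 1)) x, max (g (j, 1)) x) = 0 <;>
      simp [gr, H73.ind, H73.ed, n0, n1, a0, a1] <;> norm_num
  rw [Finset.sum_congr rfl fun ω _ => h1 ω]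
  have h2 : ∀ ω : Fin n × Fin n → Fin 1024,
      ∏ z ∈ B, (1 + H73.ind (ω (H73.ed g (z, 0))) * H73.ind (ω (H73.ed g (z, 1)))) =
      ∑ Z ∈ B.powerset, ∏ z ∈ Z, (H73.ind (ω (H73.ed g (z, 0))) * H73.ind (ω (H73.ed g (z, 1)))) := by
    intro ω
    rw [Finset.prod_one_add]
  rw [Finset.sum_congr rfl fun ω _ => h2 ω, Finset.sum_comm]
  have h3 : ∀ Z ∈ B.powerset, ∑ ω : Fin n × Fin n → Fin 1024,
      ∏ z ∈ Z, (H73.ind (ω (H73.ed g (z, 0))) * H73.ind (ω (H73.ed g (z, 1)))) =
      1024 ^ (n * n) * ∏ _z ∈ Z, ((1 : ℝ) / 1024 ^ 2) := by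
    intro Z hZ
    rw [Finset.mem_powerset] at hZ
    rw [H73.sumZ W g hg hW Z (fun z hz => (Finset.mem_product.1 (hZ hz)).2), Finset.prod_const]
  rw [Finset.sum_congr rfl h3, ← Finset.mul_sum, ← Finset.prod_one_add, Finset.prod_const, hB,
    Finset.card_product, Finset.card_univ, Fintype.card_fin]

end Pool.Agent.K4H65.EM
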